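import Pool.Agent.Lib.MP_cb668b_co.Main

set_option autoImplicit false

namespace Pool.Agent.Results.MP_cb668b_co.BenzelTilings

open Pool.Agent.Lib.MP_cb668b_co

/-- For all integers `a, b` with `2 ≤ a ≤ 2b`, `2 ≤ b ≤ 2a` and `I(a, b) ≤ 0` the `(a, b)`-benzel
has a tiling by left stones and bones. -/
theorem result : ∀ a b : ℤ, 2 ≤ a → a ≤ 2 * b → 2 ≤ b → b ≤ 2 * a → invI a b ≤ 0 →
    ∃ T : Set (Set (ℤ × ℤ × ℤ)), IsTiling T (benzel a b) :=
  fun a b h1 h2 h3 h4 hI => main a b h1 h2 h3 h4 hI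

end Pool.Agent.Results.MP_cb668b_co.BenzelTilings
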